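import Pool.Agent.WR2.StmtsC

/-!
# WR2 row COR: the core
-/

set_option autoImplicit false

namespace Pool.Agent.WR2.H81

open Pool.Agent.WIR Pool.Agent.WR2
open scoped BigOperators ENNReal

theorem tail_sq_aux (m : ℕ) (hm : 2 ≤ m) (M : ℕ) (hM : m ≤ M) :
    ∑ n ∈ Finset.Ico m M, 1 / (n : ℝ) ^ 2 ≤ 1 / ((m : ℝ) - 1) - 1 / ((M : ℝ) - 1) := by
  induction M, hM using Nat.le_induction with
  | base => simp
  | succ M hM ih =>
    rw [Finset.sum_Ico_succ_top hM]
    have h2 : (2 : ℝ) ≤ M := by exact_mod_cast hm.trans hM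
    have h1 : 1 / (M : ℝ) ^ 2 ≤ 1 / ((M : ℝ) - 1) - 1 / (((M + 1 : ℕ) : ℝ) - 1) := by
      push_cast
      rw [add_sub_cancel_right, div_sub_div _ _ (by linarith) (by linarith),
        div_le_div_iff₀ (by positivity) (by nlinarith)]
      nlinarith
    linarith

/-- `sum_(m ≤ n < M) 1/n^2 ≤ 1/(m-1)` -/
theorem tail_sq (m : ℕ) (hm : 2 ≤ m) (M : ℕ) :
    ∑ n ∈ Finset.Ico m M, 1 / (n : ℝ) ^ 2 ≤ 1 / ((m : ℝ) - 1) := by
  have h2 : (2 : ℝ) ≤ m := by exact_mod_cast hm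
  rcases le_or_gt m M with h | h
  · have h3 : (m : ℝ) ≤ M := by exact_mod_cast h
    have h4 : 0 ≤ 1 / ((M : ℝ) - 1) := div_nonneg zero_le_one (by linarith)
    have := tail_sq_aux m hm M h
    linarith
  · rw [Finset.Ico_eq_empty (by omega), Finset.sum_empty]
    exact div_nonneg zero_le_one (by linarith)

theorem AO_nonneg (t : ℕ) (f : ℕ → ℕ → ℝ) (hf : ∀ l m, 0 ≤ f l m) (a : ℕ) : 0 ≤ AO t f a := by
  unfold AO PS
  exact Finset.sum_nonneg fun l _ => mul_nonneg (by positivity)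
    (Finset.sum_nonneg fun b _ => hf l b)

theorem Eb_nonneg (q i a : ℕ) : 0 ≤ Eb q i a :=
  AO_nonneg _ _ (fun _ _ => le_max_left _ _) a

theorem cor (hava : AvaStmt) (hwrb : WrbStmt) (hvrb : VrbStmt) (hsmn : SmnStmt)
    (hchn : ChnStmt) (herb : ErbStmt) (hecb : EcbStmt) (hmkv : MkvStmt) (hbad : BadStmt) :
    CorStmt := by
  classical
  intro ε hε
  obtain ⟨c0, hc0, N0, hB⟩ := hbad (ε / 2) (by positivity)
  obtain ⟨hV1, hV2⟩ := hvrb
  obtain ⟨C1, hC1, hVA⟩ := hV2 1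
  obtain ⟨C2, hC2, e2, he2, hs2, hb2⟩ := hsmn
  obtain ⟨C3, hC3, hs3⟩ := herb
  obtain ⟨C4, hC4, hE4⟩ := hecb
  set δ : ℝ := c0 * ε / 16 with hδ
  have hδp : 0 < δ := by positivity
  obtain ⟨k0, hk0⟩ := exists_nat_ge ((C1 + C2) / δ)
  rw [div_le_iff₀ hδp] at hk0
  obtain ⟨q1, hq1⟩ := exists_nat_ge ((C3 + 400 * C4) / (2 * δ))
  rw [div_le_iff₀ (by positivity)] at hq1
  obtain ⟨rs, hrs⟩ : ∃ rs : ℕ, rs = k0 + N0 + 2 := ⟨_, rfl⟩
  obtain ⟨n1, hn1⟩ : ∃ n1 : ℕ, n1 = 3 * rs := ⟨_, rfl⟩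
  refine ⟨c0 / 4, by positivity, n1, q1 + 2000 + 1000 * (rs + 1), ?_⟩
  intro q hq
  have hq2 : 2000 ≤ q :=
    le_trans (le_trans (Nat.le_add_left 2000 q1) (Nat.le_add_right _ _)) hq
  have hrsq : rs ≤ q := by omega
  have hrk : (k0 : ℝ) ≤ rs := by exact_mod_cast (by omega : k0 ≤ rs)
  have hrs2 : (2 : ℝ) ≤ rs := by exact_mod_cast (by omega : 2 ≤ rs)
  have hn1r : (n1 : ℝ) = 3 * rs := by rw [hn1]; push_cast; ring
  have hqr : (q1 : ℝ) ≤ q := by exact_mod_cast (by omega : q1 ≤ q)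
  have hq2r : (2000 : ℝ) ≤ q := by exact_mod_cast hq2
  have h3q : (0 : ℝ) < 3 ^ q := by positivity
  obtain ⟨e4, he4, hs4, hb4⟩ := hE4 q hq2
  set F : ℕ → ℕ → ℝ := fun J a => VR rs q a + ∑ n ∈ Finset.Ico n1 (q / 7), e2 n a
    + ∑ i ∈ Finset.range J, Eb q i a
    + ∑ n ∈ (Finset.range J).filter (fun n => q ≤ 100 * n), e4 n a with hF
  have hVR0 : ∀ a, 0 ≤ VR rs q a := fun a => Finset.sum_nonneg fun _ _ => abs_nonneg _
  have hF2 : ∀ a, 0 ≤ ∑ n ∈ Finset.Ico n1 (q / 7), e2 n a :=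
    fun a => Finset.sum_nonneg fun n _ => he2 n a
  have hF3 : ∀ J a, 0 ≤ ∑ i ∈ Finset.range J, Eb q i a :=
    fun J a => Finset.sum_nonneg fun i _ => Eb_nonneg q i a
  have hF4 : ∀ J a, 0 ≤ ∑ n ∈ (Finset.range J).filter (fun n => q ≤ 100 * n), e4 n a :=
    fun J a => Finset.sum_nonneg fun n _ => he4 n a
  have hF0 : ∀ J a, 0 ≤ F J a := by
    intro J a
    have := hVR0 a
    have := hF2 a
    have := hF3 J a
    have := hF4 J a
    simp only [hF]
    linarith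
  have hFm : ∀ a J J', J ≤ J' → F J a ≤ F J' a := by
    intro a J J' hJ
    have h1 : ∑ i ∈ Finset.range J, Eb q i a ≤ ∑ i ∈ Finset.range J', Eb q i a :=
      Finset.sum_le_sum_of_subset_of_nonneg (Finset.range_mono hJ)
        fun i _ _ => Eb_nonneg q i a
    have h2 : ∑ n ∈ (Finset.range J).filter (fun n => q ≤ 100 * n), e4 n a ≤
        ∑ n ∈ (Finset.range J').filter (fun n => q ≤ 100 * n), e4 n a :=
      Finset.sum_le_sum_of_subset_of_nonneg
        (Finset.filter_subset_filter _ (Finset.range_mono hJ)) fun n _ _ => he4 n a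
    simp only [hF]
    linarith
  -- the sum over `a`
  have hFs : ∀ J, ∑ a ∈ Finset.Icc 1 (3 ^ q), F J a ≤ 4 * δ * 3 ^ q := by
    intro J
    have e1 : ∑ a ∈ Finset.Icc 1 (3 ^ q), VR rs q a ≤ δ * 3 ^ q := by
      have h1 := (hVA rs q hrsq).2
      rw [pow_one] at h1
      unfold av at h1
      rw [div_le_iff₀ h3q] at h1
      refine h1.trans (mul_le_mul_of_nonneg_right ?_ h3q.le)
      rw [div_le_iff₀ (by positivity)]
      nlinarith
    have e2' : ∑ a ∈ Finset.Icc 1 (3 ^ q), ∑ n ∈ Finset.Ico n1 (q / 7), e2 n a ≤ δ * 3 ^ q := by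
      rw [Finset.sum_comm]
      have h1 : ∀ n ∈ Finset.Ico n1 (q / 7), ∑ a ∈ Finset.Icc 1 (3 ^ q), e2 n a ≤
          C2 * 3 ^ q * (1 / (n : ℝ) ^ 2) := by
        intro n hn
        rw [Finset.mem_Ico] at hn
        have := hs2 n q (by omega) (by omega)
        rw [mul_one_div]
        exact this
      refine (Finset.sum_le_sum h1).trans ?_
      rw [← Finset.mul_sum]
      have h2 := tail_sq n1 (by omega) (q / 7)
      have h3 : (0 : ℝ) < (n1 : ℝ) - 1 := by rw [hn1r]; linarith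
      have h4 : C2 * (1 / ((n1 : ℝ) - 1)) ≤ δ := by
        rw [mul_one_div, div_le_iff₀ h3, hn1r]
        nlinarith
      calc C2 * 3 ^ q * ∑ n ∈ Finset.Ico n1 (q / 7), 1 / (n : ℝ) ^ 2
          ≤ C2 * 3 ^ q * (1 / ((n1 : ℝ) - 1)) :=
            mul_le_mul_of_nonneg_left h2 (by positivity)
        _ = (C2 * (1 / ((n1 : ℝ) - 1))) * 3 ^ q := by ring
        _ ≤ δ * 3 ^ q := mul_le_mul_of_nonneg_right h4 h3q.le
    have e3' := hs3 q J (le_trans (by norm_num) hq2)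
    have e4' : ∑ a ∈ Finset.Icc 1 (3 ^ q),
        ∑ n ∈ (Finset.range J).filter (fun n => q ≤ 100 * n), e4 n a ≤
          400 * C4 * 3 ^ q / q := by
      rw [Finset.sum_comm]
      have h1 : ∀ n ∈ (Finset.range J).filter (fun n => q ≤ 100 * n),
          ∑ a ∈ Finset.Icc 1 (3 ^ q), e4 n a ≤ C4 * 3 ^ q * (1 / (n : ℝ) ^ 2) := by
        intro n hn
        rw [Finset.mem_filter] at hn
        rw [mul_one_div]
        exact hs4 n hn.2
      refine (Finset.sum_le_sum h1).trans ?_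
      rw [← Finset.mul_sum]
      have h2 : ∑ n ∈ (Finset.range J).filter (fun n => q ≤ 100 * n), 1 / (n : ℝ) ^ 2 ≤
          1 / (((q / 100 : ℕ) : ℝ) - 1) := by
        refine (Finset.sum_le_sum_of_subset_of_nonneg (t := Finset.Ico (q / 100) J) ?_ ?_).trans
          (tail_sq (q / 100) (by omega) J)
        · intro n hn
          rw [Finset.mem_filter, Finset.mem_range] at hn
          rw [Finset.mem_Ico]
          omega
        · intro _ _ _; positivity
      have h3 : (q : ℝ) ≤ 400 * (((q / 100 : ℕ) : ℝ) - 1) := by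
        have h4 : q ≤ 100 * (q / 100) + 99 := by omega
        have h5 : (q : ℝ) ≤ 100 * ((q / 100 : ℕ) : ℝ) + 99 := by exact_mod_cast h4
        linarith
      have h6 : 1 / (((q / 100 : ℕ) : ℝ) - 1) ≤ 400 / q := by
        rw [div_le_div_iff₀ (by linarith) (by linarith)]
        linarith
      calc C4 * 3 ^ q * ∑ n ∈ (Finset.range J).filter (fun n => q ≤ 100 * n), 1 / (n : ℝ) ^ 2
          ≤ C4 * 3 ^ q * (400 / q) :=
            mul_le_mul_of_nonneg_left (h2.trans h6) (by positivity)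
        _ = 400 * C4 * 3 ^ q / q := by ring
    have e5 : C3 * 3 ^ q / q + 400 * C4 * 3 ^ q / q ≤ 2 * δ * 3 ^ q := by
      rw [← add_div, div_le_iff₀ (by linarith)]
      have h1 : C3 + 400 * C4 ≤ 2 * δ * q := by nlinarith
      nlinarith
    simp only [hF]
    rw [Finset.sum_add_distrib, Finset.sum_add_distrib, Finset.sum_add_distrib]
    linarith
  -- Markov and the bad integers
  obtain ⟨B', hB'm, hB'c⟩ : ∃ B' : Finset ℕ,
      (∀ a, a ∈ B' ↔ a ∈ Finset.Icc 1 (3 ^ q) ∧ ∃ J, c0 / 2 ≤ F J a) ∧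
      c0 / 2 * (B'.card : ℝ) ≤ 4 * δ * 3 ^ q :=
    ⟨_, fun a => Finset.mem_filter, hmkv (Finset.Icc 1 (3 ^ q)) F (c0 / 2) _ (by positivity) hF0
      hFm hFs⟩
  obtain ⟨A', hA'm, hA'c⟩ : ∃ A' : Finset ℕ,
      (∀ a, a ∈ A' ↔ a ∈ Finset.Icc 1 (3 ^ q) ∧ (¬ 3 ∣ a ∧ wr rs a < c0)) ∧
      (A'.card : ℝ) ≤ ε / 2 * 3 ^ q :=
    ⟨_, fun a => Finset.mem_filter, hB rs q (by omega) hrsq⟩
  have hB'c2 : (B'.card : ℝ) ≤ ε / 2 * 3 ^ q := by
    have h1 : 4 * δ * 3 ^ q = c0 / 2 * (ε / 2 * 3 ^ q) := by rw [hδ]; ring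
    rw [h1] at hB'c
    exact le_of_mul_le_mul_left hB'c (by positivity)
  refine (Nat.cast_le.2 (Finset.card_le_card (t := A' ∪ B') ?_)).trans ?_
  · intro a ha
    rw [Finset.mem_filter] at ha
    obtain ⟨haI, ha3, n, hn, hL⟩ := ha
    have ha0 : 0 < a := (Finset.mem_Icc.1 haI).1
    rw [Finset.mem_union, hA'm, hB'm]
    by_contra hcon
    rw [not_or] at hcon
    obtain ⟨hc1, hc2⟩ := hcon
    have hwr : c0 ≤ wr rs a := by
      by_contra hlt
      exact hc1 ⟨haI, ha3, not_le.1 hlt⟩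
    have hFJ : ∀ J, F J a < c0 / 2 := by
      intro J
      by_contra hlt
      exact hc2 ⟨haI, J, not_lt.1 hlt⟩
    have h2n : (0 : ℝ) < 2 ^ n := by positivity
    rcases le_or_gt (7 * (n + 1)) q with hcase | hcase
    · -- small `n`
      obtain ⟨L, hLe⟩ := hb2 n a (by omega) ha0
      have h1 := hL L
      have h2 := hV1 rs (n / 3) q a (by omega) (by omega)
      have h3 := hFJ 0
      have h4 : e2 n a ≤ ∑ n ∈ Finset.Ico n1 (q / 7), e2 n a :=
        Finset.single_le_sum (f := fun n => e2 n a) (fun n _ => he2 n a)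
          (Finset.mem_Ico.2 ⟨hn, by omega⟩)
      have h5 : F 0 a = VR rs q a + ∑ n ∈ Finset.Ico n1 (q / 7), e2 n a := by
        simp only [hF, Finset.range_zero, Finset.sum_empty, Finset.filter_empty, add_zero]
      rw [h5] at h3
      have h6 : c0 / 2 < wr (n / 3) a - e2 n a := by
        have := (abs_le.1 h2).1
        linarith
      have h7 : 2 ^ n * (c0 / 2) < 2 ^ n * (wr (n / 3) a - e2 n a) :=
        mul_lt_mul_of_pos_left h6 h2n
      linarith
    · -- large `n`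
      have hqn : q ≤ 100 * n := by omega
      obtain ⟨j, L, hLe⟩ := hb4 n a hqn ha0
      have h1 := hL L
      have h2 := hV1 rs (q / 1000) q a (by omega) (by omega)
      have h3 := hFJ (max j (n + 1))
      have h4 := hchn q j a ha0
      have h5 : ∑ i ∈ Finset.range j, Eb q i a ≤
          ∑ i ∈ Finset.range (max j (n + 1)), Eb q i a :=
        Finset.sum_le_sum_of_subset_of_nonneg (Finset.range_mono (le_max_left _ _))
          fun i _ _ => Eb_nonneg q i a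
      have h6 : e4 n a ≤
          ∑ n ∈ (Finset.range (max j (n + 1))).filter (fun n => q ≤ 100 * n), e4 n a := by
        refine Finset.single_le_sum (f := fun n => e4 n a) (fun n _ => he4 n a)
          (Finset.mem_filter.2 ⟨Finset.mem_range.2 ?_, hqn⟩)
        exact lt_of_lt_of_le (Nat.lt_succ_self n) (le_max_right _ _)
      have h7 := hF2 a
      have h8 : VR rs q a + ∑ i ∈ Finset.range j, Eb q i a + e4 n a ≤ F (max j (n + 1)) a := by
        simp only [hF]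
        linarith
      have h9 : c0 / 2 < Tht (tj q j) ((tj q j + q) / 1000) a - e4 n a := by
        have := (abs_le.1 h2).1
        linarith
      have h10 : 2 ^ n * (c0 / 2) < 2 ^ n * (Tht (tj q j) ((tj q j + q) / 1000) a - e4 n a) :=
        mul_lt_mul_of_pos_left h9 h2n
      linarith
  · have h1 : ((A' ∪ B').card : ℝ) ≤ (A'.card : ℝ) + B'.card := by
      exact_mod_cast Finset.card_union_le A' B'
    linarith

end Pool.Agent.WR2.H81
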