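import Pool.Agent.WR2.StmtsA

/-!
# WR2 row VRB: total variation of the densities
-/

set_option autoImplicit false

namespace Pool.Agent.WR2.H81

open Pool.Agent.WIR Pool.Agent.WR2
open scoped BigOperators ENNReal

theorem inv_sq_sum (R : ℕ) :
    ∑ N ∈ Finset.range (R + 1), 1 / ((N : ℝ) + 1) ^ 2 ≤ 2 - 1 / ((R : ℝ) + 1) := by
  induction R with
  | zero => norm_num
  | succ R ih =>
    rw [Finset.sum_range_succ]
    have h1 : 1 / (((R + 1 : ℕ) : ℝ) + 1) ^ 2 ≤
        1 / ((R : ℝ) + 1) - 1 / (((R + 1 : ℕ) : ℝ) + 1) := by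
      push_cast
      rw [div_sub_div _ _ (by positivity) (by positivity),
        div_le_div_iff₀ (by positivity) (by positivity)]
      nlinarith [Nat.cast_nonneg (α := ℝ) R]
    linarith

theorem vrb (hava : AvaStmt) (hwrb : WrbStmt) : VrbStmt := by
  obtain ⟨ha1, -, -, -⟩ := hava
  obtain ⟨-, hw1, hw2⟩ := hwrb
  have hmono : ∀ r r' R m : ℕ, r' ≤ R → VR r r' m ≤ VR r R m := by
    intro r r' R m h
    unfold VR
    exact Finset.sum_le_sum_of_subset_of_nonneg (Finset.Ico_subset_Ico_right h)
      fun _ _ _ => abs_nonneg _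
  have hstep : ∀ r k m : ℕ, |wr (r + k) m - wr r m| ≤ VR r (r + k) m := by
    intro r k m
    induction k with
    | zero => simp [VR]
    | succ k ih =>
      have h1 : VR r (r + (k + 1)) m = VR r (r + k) m + |wr (r + k + 1) m - wr (r + k) m| := by
        unfold VR
        rw [← add_assoc, Finset.sum_Ico_succ_top (by omega)]
      rw [h1]
      have h2 : wr (r + (k + 1)) m - wr r m =
          (wr (r + k) m - wr r m) + (wr (r + k + 1) m - wr (r + k) m) := by
        rw [← add_assoc]; ring
      rw [h2]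
      exact (abs_add_le _ _).trans (add_le_add ih le_rfl)
  refine ⟨?_, ?_⟩
  · intro r r' R m h1 h2
    obtain ⟨k, rfl⟩ := Nat.exists_eq_add_of_le h1
    exact (hstep r k m).trans (hmono r _ R m h2)
  · intro A
    obtain ⟨C, hC, hav⟩ := hw2 (A + 2)
    have hC0 : 0 < C := by linarith
    refine ⟨2 * C, by linarith, ?_⟩
    intro r R hrR
    have hlv : ∀ N, N ≤ R → Lv R (wr N) := fun N hN => (ha1 N R _ (hw1 N).1 hN).1
    have hlvd : ∀ N, Lv (N + 1) (fun m => |wr (N + 1) m - wr N m|) := by
      intro N m hm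
      have h1 := (hw1 (N + 1)).1 m hm
      have h2 := (ha1 N (N + 1) _ (hw1 N).1 (Nat.le_succ N)).1 m hm
      simp only [h1, h2]
    refine ⟨?_, ?_⟩
    · intro m hm
      unfold VR
      refine Finset.sum_congr rfl fun N hN => ?_
      rw [Finset.mem_Ico] at hN
      rw [hlv (N + 1) hN.2 m hm, hlv N (by omega) m hm]
    · have h1 : av R (VR r R) =
          ∑ N ∈ Finset.Ico r R, av R (fun m => |wr (N + 1) m - wr N m|) := by
        unfold av VR
        rw [Finset.sum_comm, Finset.sum_div]
      rw [h1]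
      have h2 : ∀ N ∈ Finset.Ico r R, av R (fun m => |wr (N + 1) m - wr N m|) ≤
          (C / ((r : ℝ) + 1) ^ A) * (1 / ((N : ℝ) + 1) ^ 2) := by
        intro N hN
        rw [Finset.mem_Ico] at hN
        have hrN : (r : ℝ) ≤ N := by exact_mod_cast hN.1
        rw [(ha1 (N + 1) R _ (hlvd N) hN.2).2]
        refine (hav N).trans ?_
        rw [div_mul_div_comm, mul_one]
        refine div_le_div_of_nonneg_left hC0.le (by positivity) ?_
        rw [pow_add]
        refine mul_le_mul_of_nonneg_right ?_ (by positivity)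
        exact pow_le_pow_left₀ (by positivity) (by linarith) A
      refine (Finset.sum_le_sum h2).trans ?_
      rw [← Finset.mul_sum]
      have h3 : ∑ N ∈ Finset.Ico r R, 1 / ((N : ℝ) + 1) ^ 2 ≤ 2 := by
        refine (Finset.sum_le_sum_of_subset_of_nonneg (t := Finset.range (R + 1)) ?_ ?_).trans
          ((inv_sq_sum R).trans ?_)
        · intro N hN
          rw [Finset.mem_Ico] at hN
          rw [Finset.mem_range]
          omega
        · intro _ _ _; positivity
        · have : 0 ≤ 1 / ((R : ℝ) + 1) := by positivity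
          linarith
      have h4 : 0 ≤ C / ((r : ℝ) + 1) ^ A := by positivity
      calc C / ((r : ℝ) + 1) ^ A * ∑ N ∈ Finset.Ico r R, 1 / ((N : ℝ) + 1) ^ 2
          ≤ C / ((r : ℝ) + 1) ^ A * 2 := mul_le_mul_of_nonneg_left h3 h4
        _ = 2 * C / ((r : ℝ) + 1) ^ A := by ring

end Pool.Agent.WR2.H81
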